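import Pool.Agent.Helper710.QPDefs
import Pool.Agent.H282Z.QPFinal

set_option autoImplicit false

open Pool.Agent.Helper710.QuasiProper
open scoped Manifold ContDiff

namespace Pool.Agent.Results.MP_fa6e01_an.ANotProduct

/-- There is a two-sheeted covering of the disc with all the standing properties of the problem
and a quasi-proper map of it that is neither a finite nor an infinite product of members of `L`. -/
theorem result : ∃ (X : Type) (_ : TopologicalSpace X) (_ : ChartedSpace ℂ X)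
    (φ ϑ : X → ℂ) (σ : X → X) (B : ℂ → ℂ),
    IsOpenRiemannSurface X ∧ ProperToDisc φ ∧ TwoSimpleZeros φ ∧ (Branch φ).Infinite ∧
    MDifferentiable 𝓘(ℂ) 𝓘(ℂ) σ ∧ (∀ x, φ (σ x) = φ x) ∧ (∀ x, σ (σ x) = x) ∧ σ ≠ id ∧
    Summable (fun x : Branch φ => 1 - ‖φ x‖) ∧ IsTraceProduct φ B ∧
    Holo ϑ ∧ (∀ x, ϑ x ^ 2 = B (φ x)) ∧ (∀ x, ϑ (σ x) = -ϑ x) ∧
    ∃ θ : X → ℂ, IsQuasiProper θ ∧ ¬ IsFiniteProduct (family φ ϑ B) θ ∧
      ¬ IsInfiniteProduct (family φ ϑ B) θ :=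
  Pool.Agent.H282Z.QP.main

end Pool.Agent.Results.MP_fa6e01_an.ANotProduct
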